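import Mathlib
import Pool.Agent.X78.ConnC

set_option autoImplicit false

/-!
# Matching Ramsey bounds in connectors

For all `q ≥ 1` and `r ≥ 2` there is a function `φ` on `(0,1]` with positive values, tending to
`0` at `0`, such that every `r`-uniform `s`-connector on `n ≥ (r-1) max t + Λ_t + 1 + n φ(s/n)`
vertices satisfies `H → t K_r^r`.
-/

namespace Pool.Agent.Results.MP_d738f8_co.ConnectorMatchings

open Finset Filter Topology

/-- `H` is an `r`-uniform hypergraph. -/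
def Uniform {V : Type} (r : ℕ) (H : Finset (Finset V)) : Prop :=
  ∀ e ∈ H, e.card = r

/-- `H` is an `s`-connector: whenever `A 1, …, A r` are pairwise disjoint sets with at least `s`
vertices each, some edge `{v 1, …, v r}` of `H` has `v i ∈ A i` for every `i`. -/
def IsConnector {V : Type} [DecidableEq V] (r s : ℕ) (H : Finset (Finset V)) : Prop :=
  ∀ A : Fin r → Finset V, (∀ i j, i ≠ j → Disjoint (A i) (A j)) → (∀ i, s ≤ (A i).card) →
    ∃ v : Fin r → V, (∀ i, v i ∈ A i) ∧ univ.image v ∈ H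

/-- `H → t K_r^r`: for every colouring of the edges with `q` colours there are a colour `j` and
`t j` pairwise disjoint edges of colour `j`. -/
def Arrows {V : Type} [DecidableEq V] {q : ℕ} (H : Finset (Finset V)) (t : Fin q → ℕ) : Prop :=
  ∀ χ : Finset V → Fin q, ∃ j : Fin q, ∃ M ⊆ H, (∀ e ∈ M, χ e = j) ∧
    (∀ e ∈ M, ∀ f ∈ M, e ≠ f → Disjoint e f) ∧ M.card = t j

/-- The conclusion for a fixed ratio `x = s / n`, with error term `ε n`. -/
def GoodAt (q r : ℕ) (ε x : ℝ) : Prop :=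
  ∀ n s : ℕ, 1 ≤ s → s ≤ n → (s : ℝ) / n = x → ∀ t : Fin q → ℕ, (∀ j, 1 ≤ t j) →
    ((r : ℝ) - 1) * (univ.sup t : ℕ) + ∑ j, ((t j : ℝ) - 1) + 1 + n * ε ≤ n →
    ∀ H : Finset (Finset (Fin n)), Uniform r H → IsConnector r s H → Arrows H t

theorem goodAt_mono {q r : ℕ} {ε ε' x : ℝ} (h : ε ≤ ε') (hg : GoodAt q r ε x) :
    GoodAt q r ε' x := by
  intro n s hs hsn hx t ht hn
  refine hg n s hs hsn hx t ht (le_trans ?_ hn)
  have : (n : ℝ) * ε ≤ n * ε' := mul_le_mul_of_nonneg_left h (Nat.cast_nonneg n)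
  linarith

theorem goodAt_one {q r : ℕ} (hr : 1 ≤ r) (x : ℝ) : GoodAt q r 1 x := by
  intro n s _ _ _ t ht hn
  exfalso
  have hr1 : (1 : ℝ) ≤ r := by exact_mod_cast hr
  have h1 : (0 : ℝ) ≤ ((r : ℝ) - 1) * (univ.sup t : ℕ) :=
    mul_nonneg (by linarith) (Nat.cast_nonneg _)
  have h2 : (0 : ℝ) ≤ ∑ j, ((t j : ℝ) - 1) := by
    refine Finset.sum_nonneg (fun j _ => ?_)
    have : (1 : ℝ) ≤ t j := by exact_mod_cast ht j
    linarith
  linarith

theorem goodAt_small {q r : ℕ} (hq : 1 ≤ q) (hr : 1 ≤ r) (ε : ℝ) (hε : 0 < ε) (hε1 : ε ≤ 1) :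
    ∃ δ : ℝ, 0 < δ ∧ ∀ x : ℝ, x ≤ δ → GoodAt q r ε x := by
  obtain ⟨δ, hδ, hmain⟩ := Pool.Agent.X78.ConnC.main q r hr ε hε hε1
  refine ⟨δ, hδ, ?_⟩
  intro x hx n s hs hsn hxe t ht hn H _ hconn χ
  by_contra hcon
  push Not at hcon
  have hn0 : (0 : ℝ) < n := by
    have : 0 < n := lt_of_lt_of_le hs hsn
    exact_mod_cast this
  have hsδ : (s : ℝ) ≤ δ * n := by
    rw [← hxe, div_le_iff₀ hn0] at hx
    exact hx
  have hsup1 : ∀ j, t j ≤ univ.sup t := fun j => Finset.le_sup (f := t) (mem_univ j)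
  have hsuppos : 1 ≤ univ.sup t := le_trans (ht ⟨0, hq⟩) (hsup1 ⟨0, hq⟩)
  have key := hmain n s hs hsδ H χ
    (by
      intro A hA hAs
      obtain ⟨v, hv, hvH⟩ := hconn A hA hAs
      exact ⟨_, hvH, v, hv, rfl⟩)
    (fun j => t j - 1) (univ.sup t - 1)
    (fun j => Nat.sub_le_sub_right (hsup1 j) 1)
    (by
      intro j M hM hmatch
      by_contra hlt
      have hlt' : t j ≤ M.card := by
        have := ht j
        omega
      obtain ⟨M', hM', hcard⟩ := Finset.exists_subset_card_eq hlt'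
      refine hcon j M' (fun e he => (Finset.mem_filter.mp (hM (hM' he))).1) ?_ ?_ hcard
      · intro e he
        exact (Finset.mem_filter.mp (hM (hM' he))).2
      · intro e he f hf hef
        exact hmatch e (hM' he) f (hM' hf) hef)
  have hr1 : (1 : ℝ) ≤ r := by exact_mod_cast hr
  have hN : ((univ.sup t - 1 : ℕ) : ℝ) = (univ.sup t : ℕ) - 1 := by
    rw [Nat.cast_sub hsuppos, Nat.cast_one]
  have hS : ∑ j, ((t j - 1 : ℕ) : ℝ) = ∑ j, ((t j : ℝ) - 1) := by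
    refine Finset.sum_congr rfl (fun j _ => ?_)
    rw [Nat.cast_sub (ht j), Nat.cast_one]
  rw [hN, hS] at key
  nlinarith [key, hn]

/-- For all `q ≥ 1` and `r ≥ 2` there is `φ : (0,1] → (0,∞)` with `φ(x) → 0` as `x → 0` such that
for all `s ≥ 1`, all `t ∈ ℕ₊^q` and all `n ≥ s` with
`n ≥ (r-1) max t + ∑ (t_j - 1) + 1 + n φ(s/n)`, every `r`-uniform `s`-connector `H` on `n`
vertices satisfies `H → t K_r^r`. -/
theorem result : ∀ q r : ℕ, 1 ≤ q → 2 ≤ r → ∃ φ : ℝ → ℝ,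
    (∀ x : ℝ, 0 < x → x ≤ 1 → 0 < φ x) ∧
    Tendsto φ (𝓝[>] 0) (𝓝 0) ∧
    ∀ n s : ℕ, 1 ≤ s → s ≤ n → ∀ t : Fin q → ℕ, (∀ j, 1 ≤ t j) →
      ((r : ℝ) - 1) * (univ.sup t : ℕ) + ∑ j, ((t j : ℝ) - 1) + 1 + n * φ ((s : ℝ) / n) ≤ n →
      ∀ H : Finset (Finset (Fin n)), Uniform r H → IsConnector r s H → Arrows H t := by
  intro q r hq hr
  have hr1 : 1 ≤ r := by omega
  let S : ℝ → Set ℝ := fun x => {ε | 0 < ε ∧ GoodAt q r ε x}
  have hSne : ∀ x, (S x).Nonempty := fun x => ⟨1, one_pos, goodAt_one hr1 x⟩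
  have hSbdd : ∀ x, BddBelow (S x) := fun x => ⟨0, fun ε hε => hε.1.le⟩
  have hS0 : ∀ x, 0 ≤ sInf (S x) := fun x => Real.sInf_nonneg (fun ε hε => hε.1.le)
  refine ⟨fun x => sInf (S x) + x, ?_, ?_, ?_⟩
  · intro x hx _
    have := hS0 x
    simp only
    linarith
  · rw [Metric.tendsto_nhdsWithin_nhds]
    intro ε hε
    have hε' : 0 < min (ε / 2) 1 := lt_min (by linarith) one_pos
    obtain ⟨δ, hδ, hgood⟩ := goodAt_small hq hr1 (min (ε / 2) 1) hε' (min_le_right _ _)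
    refine ⟨min δ (ε / 2), lt_min hδ (by linarith), ?_⟩
    intro x hx hdist
    rw [Real.dist_eq, sub_zero] at hdist
    have hx0 : (0 : ℝ) < x := hx
    rw [abs_of_pos hx0] at hdist
    have hxδ : x ≤ δ := le_trans hdist.le (min_le_left _ _)
    have hxε : x < ε / 2 := lt_of_lt_of_le hdist (min_le_right _ _)
    have h1 : sInf (S x) ≤ min (ε / 2) 1 := csInf_le (hSbdd x) ⟨hε', hgood x hxδ⟩
    have h2 : sInf (S x) ≤ ε / 2 := le_trans h1 (min_le_left _ _)
    rw [Real.dist_eq, sub_zero, abs_of_pos (by have := hS0 x; linarith)]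
    linarith
  · intro n s hs hsn t ht hn H hH hconn
    have hn0 : (0 : ℝ) < n := by
      have : 0 < n := lt_of_lt_of_le hs hsn
      exact_mod_cast this
    have hs0 : (0 : ℝ) < s := by exact_mod_cast hs
    have hx0 : (0 : ℝ) < (s : ℝ) / n := div_pos hs0 hn0
    obtain ⟨ε, hε, hlt⟩ := exists_lt_of_csInf_lt (hSne ((s : ℝ) / n))
      (show sInf (S ((s : ℝ) / n)) < sInf (S ((s : ℝ) / n)) + (s : ℝ) / n by linarith)
    have hg : GoodAt q r (sInf (S ((s : ℝ) / n)) + (s : ℝ) / n) ((s : ℝ) / n) :=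
      goodAt_mono hlt.le hε.2
    exact hg n s hs hsn rfl t ht hn H hH hconn

end Pool.Agent.Results.MP_d738f8_co.ConnectorMatchings
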